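import Pool.Agent.PDM.Stmts

/-!
# PDM, row CH3: the symbolic chain
-/

set_option autoImplicit false

namespace Pool.Agent.PDM.H79

open Pool.Agent.PDN Pool.Agent.PDM

/-- the state with all pending degrees counted -/
def QQ (A : ℕ) (N : Multiset (ℕ × Bool)) : Prop :=
  ∃ (α dz : ℕ) (mz : Bool) (db : ℕ) (mb : Bool) (M : Multiset (ℕ × Bool)) (s : ℕ),
    St α dz mz db mb M ∧ A = α + s ∧
    N = M + {(dz + 1, mz)} + {(db + s + 2, mb)} + Multiset.replicate s (4, false)

theorem qq_base (bas : BasStmt) (D e : ℕ) (hD : 20 ≤ D) (he : 3 ≤ e) :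
    ∃ A n, A + 10 = 2 * D ∧ n + 14 = e + 2 * D ∧
      QQ A ({(e, true)} + {(e + 3, false)} + Multiset.replicate 2 (D, true) +
        Multiset.replicate n (4, false)) := by
  refine ⟨2 * D - 10, e + 2 * D - 14, by omega, by omega, D - 2, e + 2, false, 6, true, _, D - 8,
    bas D e (by omega) he, by omega, ?_⟩
  have h1 : 6 + (D - 8) + 2 = D := by omega
  have h2 : e + 2 * D - 14 = ((e - 2) + (D - 4)) + (D - 8) := by omega
  rw [h1, h2, Multiset.replicate_add ((e - 2) + (D - 4)) (D - 8)]
  have h3 : Multiset.replicate 2 (D, true) = ({(D, true)} : Multiset (ℕ × Bool)) + {(D, true)} := by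
    rfl
  rw [h3, Multiset.insert_eq_cons, ← Multiset.singleton_add]
  abel

theorem qq_app (app : AppStmt) (A : ℕ) (N : Multiset (ℕ × Bool)) (h : QQ A N) (x : ℕ)
    (hx : 20 ≤ x) :
    ∃ A', A' + 4 = A + x ∧
      QQ A' (N + {(x, false)} + Multiset.replicate (x - 5) (4, false)) := by
  obtain ⟨α, dz, mz, db, mb, M, s, hst, hA, hN⟩ := h
  refine ⟨A + x - 4, by omega, α + 1 + s, db + 1 + s, mb, 3, false, _, x - 5,
    app α dz mz db mb M hst s, by omega, ?_⟩
  have h1 : 3 + (x - 5) + 2 = x := by omega
  have h2 : db + 1 + s + 1 = db + s + 2 := by omega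
  rw [h1, h2, hN]
  abel

theorem qq_blk (blk : BlkStmt) (A : ℕ) (N : Multiset (ℕ × Bool)) (h : QQ A N) (D x y z : ℕ)
    (hD : 20 ≤ D) (hx : 20 ≤ x) (hy : 20 ≤ y) (hz : 20 ≤ z) :
    ∃ A', A' + 16 = A + 4 * D ∧
      QQ A' (N + Multiset.replicate 4 (D, true) + {(x, true)} + {(y, true)} + {(z, false)} +
        {(x + y + z - 10, false)} + Multiset.replicate (4 * D + x + y + z - 37) (4, false)) := by
  obtain ⟨α, dz, mz, db, mb, M, s, hst, hA, hN⟩ := h
  refine ⟨A + 4 * D - 16, by omega, α + s + 3 * D - 6, z - 1, false, 8, true, _, D - 10,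
    blk α dz mz db mb M hst s D x y z (by omega) (by omega) (by omega) (by omega), by omega, ?_⟩
  have h1 : 8 + (D - 10) + 2 = D := by omega
  have h2 : z - 1 + 1 = z := by omega
  have h3 : Multiset.replicate s (4, false) +
      Multiset.replicate (4 * D + x + y + z - 37) ((4, false) : ℕ × Bool) =
      Multiset.replicate (s + 3 * D + x + y + z - 27) (4, false) +
      Multiset.replicate (D - 10) (4, false) := by
    rw [← Multiset.replicate_add, ← Multiset.replicate_add]
    congr 1
    omega
  have h4 : Multiset.replicate 4 (D, true) =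
      ({(D, true)} : Multiset (ℕ × Bool)) + {(D, true)} + {(D, true)} + {(D, true)} := by
    rfl
  rw [h1, h2, hN, h4]
  simp only [Multiset.insert_eq_cons, ← Multiset.singleton_add]
  calc M + {(dz + 1, mz)} + {(db + s + 2, mb)} + Multiset.replicate s (4, false) +
        ({(D, true)} + {(D, true)} + {(D, true)} + {(D, true)}) +
        {(x, true)} + {(y, true)} + {(z, false)} + {(x + y + z - 10, false)} +
        Multiset.replicate (4 * D + x + y + z - 37) (4, false)
      = M + {(dz + 1, mz)} + {(db + s + 2, mb)} +
        ({(D, true)} + {(D, true)} + {(D, true)} + {(D, true)}) +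
        {(x, true)} + {(y, true)} + {(z, false)} + {(x + y + z - 10, false)} +
        (Multiset.replicate s (4, false) +
        Multiset.replicate (4 * D + x + y + z - 37) (4, false)) := by abel
    _ = _ := by
        rw [h3]
        abel

theorem qq_apps (app : AppStmt) (lf : List ℕ) : ∀ (A : ℕ) (N : Multiset (ℕ × Bool)), QQ A N →
    (∀ x ∈ lf, 20 ≤ x) →
    ∃ A' n', A' + 4 * lf.length = A + lf.sum ∧ n' + 5 * lf.length = lf.sum ∧
      QQ A' (N + Multiset.ofList (lf.map (fun x => (x, false))) +
        Multiset.replicate n' (4, false)) := by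
  induction lf with
  | nil =>
    intro A N h _
    exact ⟨A, 0, by simp, by simp, by simpa using h⟩
  | cons x l ih =>
    intro A N h hl
    have hx : 20 ≤ x := hl x (by simp)
    obtain ⟨A1, hA1, hQ⟩ := qq_app app A N h x hx
    obtain ⟨A2, n2, hA2, hn2, hQ2⟩ := ih A1 _ hQ (fun y hy => hl y (by simp [hy]))
    refine ⟨A2, n2 + (x - 5), ?_, ?_, ?_⟩
    · simp only [List.length_cons, List.sum_cons]
      omega
    · simp only [List.length_cons, List.sum_cons]
      omega
    · have e : N + Multiset.ofList ((x :: l).map (fun x => (x, false))) +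
          Multiset.replicate (n2 + (x - 5)) (4, false) =
          N + {(x, false)} + Multiset.replicate (x - 5) (4, false) +
            Multiset.ofList (l.map (fun x => (x, false))) + Multiset.replicate n2 (4, false) := by
        rw [List.map_cons, ← Multiset.cons_coe, ← Multiset.singleton_add,
          Multiset.replicate_add]
        abel
      rw [e]
      exact hQ2

theorem qq_blks (blk : BlkStmt) (D : ℕ) (hD : 20 ≤ D) (gs : List (ℕ × ℕ × ℕ)) :
    ∀ (A : ℕ) (N : Multiset (ℕ × Bool)), QQ A N →
    (∀ g ∈ gs, 20 ≤ g.1 ∧ 20 ≤ g.2.1 ∧ 20 ≤ g.2.2) →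
    ∃ A' n', A' + 16 * gs.length = A + 4 * gs.length * D ∧
      n' + 37 * gs.length = (gs.map (fun g => g.1 + g.2.1 + g.2.2)).sum + 4 * gs.length * D ∧
      QQ A' (N + Multiset.replicate (4 * gs.length) (D, true) +
          Multiset.ofList (gs.map (fun g => (g.1, true))) +
          Multiset.ofList (gs.map (fun g => (g.2.1, true))) +
          Multiset.ofList (gs.map (fun g => (g.2.2, false))) +
          Multiset.ofList (gs.map (fun g => (g.1 + g.2.1 + g.2.2 - 10, false))) +
        Multiset.replicate n' (4, false)) := by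
  induction gs with
  | nil =>
    intro A N h _
    exact ⟨A, 0, by simp, by simp, by simpa using h⟩
  | cons g l ih =>
    intro A N h hl
    obtain ⟨hx, hy, hz⟩ := hl g (by simp)
    obtain ⟨A1, hA1, hQ⟩ := qq_blk blk A N h D g.1 g.2.1 g.2.2 hD hx hy hz
    obtain ⟨A2, n2, hA2, hn2, hQ2⟩ := ih A1 _ hQ (fun y hy => hl y (by simp [hy]))
    refine ⟨A2, n2 + (4 * D + g.1 + g.2.1 + g.2.2 - 37), ?_, ?_, ?_⟩
    · simp only [List.length_cons]
      have : 4 * (l.length + 1) * D = 4 * l.length * D + 4 * D := by ring
      omega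
    · simp only [List.length_cons, List.map_cons, List.sum_cons]
      have : 4 * (l.length + 1) * D = 4 * l.length * D + 4 * D := by ring
      omega
    · have e4 : 4 * (l.length + 1) = 4 * l.length + 4 := by ring
      have e : N + Multiset.replicate (4 * (g :: l).length) (D, true) +
          Multiset.ofList ((g :: l).map (fun g => (g.1, true))) +
          Multiset.ofList ((g :: l).map (fun g => (g.2.1, true))) +
          Multiset.ofList ((g :: l).map (fun g => (g.2.2, false))) +
          Multiset.ofList ((g :: l).map (fun g => (g.1 + g.2.1 + g.2.2 - 10, false))) +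
          Multiset.replicate (n2 + (4 * D + g.1 + g.2.1 + g.2.2 - 37)) (4, false) =
          (N + Multiset.replicate 4 (D, true) + {(g.1, true)} + {(g.2.1, true)} +
            {(g.2.2, false)} + {(g.1 + g.2.1 + g.2.2 - 10, false)} +
            Multiset.replicate (4 * D + g.1 + g.2.1 + g.2.2 - 37) (4, false)) +
          Multiset.replicate (4 * l.length) (D, true) +
          Multiset.ofList (l.map (fun g => (g.1, true))) +
          Multiset.ofList (l.map (fun g => (g.2.1, true))) +
          Multiset.ofList (l.map (fun g => (g.2.2, false))) +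
          Multiset.ofList (l.map (fun g => (g.1 + g.2.1 + g.2.2 - 10, false))) +
          Multiset.replicate n2 (4, false) := by
        simp only [List.map_cons, ← Multiset.cons_coe, ← Multiset.singleton_add,
          Multiset.replicate_add n2, List.length_cons, e4,
          Multiset.replicate_add (4 * l.length) 4]
        abel
      rw [e]
      exact hQ2

theorem ch3 (bas : BasStmt) (app : AppStmt) (blk : BlkStmt) (cap : CapStmt) : Ch3Stmt := by
  intro D e₀ e₁ lf gs hD he₀ he₁ hlf hgs
  obtain ⟨A0, n0, hA0, hn0, hQ0⟩ := qq_base bas D e₀ hD he₀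
  obtain ⟨A1, n1, hA1, hn1, hQ1⟩ := qq_apps app lf A0 _ hQ0 hlf
  obtain ⟨A2, n2, hA2, hn2, hQ2⟩ := qq_blks blk D hD gs A1 _ hQ1 hgs
  obtain ⟨α, dz, mz, db, mb, M, s, hst, hA, hN⟩ := hQ2
  have hf := cap α dz mz db mb M hst s D e₁ (by omega) he₁
  have hmul : (4 * gs.length + 4) * D = 4 * gs.length * D + 4 * D := by ring
  refine ⟨α + s + 2 * D - 10, n0 + n1 + n2 + (2 * D + e₁ - 14), ?_, ?_, ?_⟩
  · rw [hmul]
    omega
  · rw [hmul]
    omega
  · have e1 : Multiset.replicate (s + 2 * D + e₁ - 14) ((4, false) : ℕ × Bool) =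
        Multiset.replicate s (4, false) + Multiset.replicate (2 * D + e₁ - 14) (4, false) := by
      rw [← Multiset.replicate_add]
      congr 1
      omega
    have e2 : Multiset.replicate (4 * gs.length + 4) ((D, true) : ℕ × Bool) =
        Multiset.replicate 2 (D, true) + Multiset.replicate (4 * gs.length) (D, true) +
          ({(D, true)} + {(D, true)}) := by
      have : Multiset.replicate 2 ((D, true) : ℕ × Bool) = {(D, true)} + {(D, true)} := rfl
      rw [← this, ← Multiset.replicate_add, ← Multiset.replicate_add]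
      congr 1
      omega
    rw [e1] at hf
    simp only [Multiset.insert_eq_cons, ← Multiset.singleton_add] at hf ⊢
    rw [e2, Multiset.replicate_add, Multiset.replicate_add, Multiset.replicate_add]
    have key : M + ({(dz + 1, mz)} + ({(db + s + 2, mb)} + ({(D, true)} + ({(D, true)} +
        ({(e₁, true)} + ({(e₁ + 3, false)} + {(α + s + 2 * D - 10, false)})))))) +
        (Multiset.replicate s (4, false) + Multiset.replicate (2 * D + e₁ - 14) (4, false)) =
        (M + {(dz + 1, mz)} + {(db + s + 2, mb)} + Multiset.replicate s (4, false)) +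
        ({(D, true)} + {(D, true)} + {(e₁, true)} + {(e₁ + 3, false)} +
          {(α + s + 2 * D - 10, false)}) +
          Multiset.replicate (2 * D + e₁ - 14) ((4, false) : ℕ × Bool) := by
      abel
    rw [key, ← hN] at hf
    have key2 : ({(α + s + 2 * D - 10, false)} + ({(e₀, true)} + ({(e₀ + 3, false)} +
        ({(e₁, true)} + {(e₁ + 3, false)}))) +
        (Multiset.replicate 2 (D, true) + Multiset.replicate (4 * gs.length) (D, true) +
          ({(D, true)} + {(D, true)})) +
          Multiset.ofList (lf.map (fun x => (x, false))) +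
          Multiset.ofList (gs.map (fun g => (g.1, true))) +
          Multiset.ofList (gs.map (fun g => (g.2.1, true))) +
          Multiset.ofList (gs.map (fun g => (g.2.2, false))) +
          Multiset.ofList (gs.map (fun g => (g.1 + g.2.1 + g.2.2 - 10, false))) +
          (Multiset.replicate n0 (4, false) + Multiset.replicate n1 (4, false) +
            Multiset.replicate n2 (4, false) +
            Multiset.replicate (2 * D + e₁ - 14) (4, false)) : Multiset (ℕ × Bool)) =
        {(e₀, true)} + {(e₀ + 3, false)} + Multiset.replicate 2 (D, true) +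
          Multiset.replicate n0 (4, false) + Multiset.ofList (lf.map (fun x => (x, false))) +
          Multiset.replicate n1 (4, false) + Multiset.replicate (4 * gs.length) (D, true) +
          Multiset.ofList (gs.map (fun g => (g.1, true))) +
          Multiset.ofList (gs.map (fun g => (g.2.1, true))) +
          Multiset.ofList (gs.map (fun g => (g.2.2, false))) +
          Multiset.ofList (gs.map (fun g => (g.1 + g.2.1 + g.2.2 - 10, false))) +
          Multiset.replicate n2 (4, false) +
        ({(D, true)} + {(D, true)} + {(e₁, true)} + {(e₁ + 3, false)} +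
          {(α + s + 2 * D - 10, false)}) +
          Multiset.replicate (2 * D + e₁ - 14) (4, false) := by
      abel
    rw [key2]
    exact hf

end Pool.Agent.PDM.H79
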