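import Pool.Agent.PDM.Stmts

/-!
# PDM, row CHE: every chain has an end
-/

set_option autoImplicit false

namespace Pool.Agent.PDM.H79

open Pool.Agent.PDN

theorem che (lnk : Pool.Agent.PDN.LnkStmt) : Pool.Agent.PDM.CheStmt := by
  intro V _ T hcon hcard a b u w ha hb hu hw h1 h2
  by_contra hno
  have hno' : ∀ a' b' p, T.deg a' = 4 → T.deg b' = 4 → T.f a' p u → T.f a' u b' →
      T.f a' b' w → T.f a' w p → T.deg p = 4 := by
    intro a' b' p q1 q2 q4 q5 q6 q7
    by_contra q3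
    exact hno ⟨a', b', p, q1, q2, q3, q4, q5, q6, q7⟩
  let S : Set (V × V) := {q | T.deg q.1 = 4 ∧ T.deg q.2 = 4 ∧ T.f q.1 q.2 u ∧ T.f q.2 q.1 w}
  have hab : (b, a) ∈ S := ⟨hb, ha, h1, h2⟩
  have step : ∀ q : S, ∃ p : V, (q.1.2, p) ∈ S ∧
      (∀ v, T.Adj q.1.2 v → v = u ∨ v = q.1.1 ∨ v = w ∨ v = p) := by
    rintro ⟨⟨c, d⟩, hc, hd, hf1, hf2⟩
    have e1 : T.f d u c := T.cyc hf1
    obtain ⟨n2, n3, n4, g1, g2, g3, g4, _, _, _, _, _, _, hall⟩ := lnk V T d u hd ⟨_, e1⟩
    have e2 : n2 = c := T.uniq g1 e1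
    subst e2
    have e3 : n3 = w := T.uniq g2 hf2
    subst e3
    refine ⟨n4, ⟨hd, hno' d n2 n4 hd hc g4 e1 hf2 g3, g4, T.cyc (T.cyc g3)⟩, ?_⟩
    intro v hv
    exact (hall v).1 hv
  choose p hp hadj using step
  let g : S → S := fun q => ⟨(q.1.2, p q), hp q⟩
  have ginj : Function.Injective g := by
    rintro ⟨⟨c, d⟩, hc⟩ ⟨⟨c', d'⟩, hc'⟩ h
    have hd : d = d' := congrArg (fun x : S => x.1.1) h
    subst hd
    have hcc : c = c' := T.uniq (T.cyc hc.2.2.1) (T.cyc hc'.2.2.1)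
    subst hcc
    rfl
  have gsurj : Function.Surjective g := Finite.surjective_of_injective ginj
  -- first components
  let C : Set V := {c | ∃ d, (c, d) ∈ S}
  have hC2 : ∀ c ∈ C, ∃ d, (d, c) ∈ S := by
    rintro c ⟨d, hd⟩
    obtain ⟨⟨⟨x, y⟩, hxy⟩, hq⟩ := gsurj ⟨(c, d), hd⟩
    have : y = c := congrArg (fun x : S => x.1.1) hq
    subst this
    exact ⟨x, hxy⟩
  have hC1 : ∀ c d, (c, d) ∈ S → d ∈ C := by
    intro c d h
    exact ⟨p ⟨(c, d), h⟩, hp ⟨(c, d), h⟩⟩
  have hclC : ∀ c ∈ C, ∀ v, T.Adj c v → v = u ∨ v = w ∨ v ∈ C := by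
    intro c hc v hv
    obtain ⟨d, hd⟩ := hC2 c hc
    rcases hadj ⟨(d, c), hd⟩ v hv with h | h | h | h
    · exact Or.inl h
    · right; right
      rw [h]
      exact ⟨c, hd⟩
    · exact Or.inr (Or.inl h)
    · right; right
      rw [h]
      exact hC1 _ _ (hp ⟨(d, c), hd⟩)
  have hbC : b ∈ C := ⟨a, hab⟩
  have hclu : ∀ v, T.Adj u v → v ∈ C := by
    intro v hv
    have h0 : T.Adj u b := ⟨a, T.cyc (T.cyc h1)⟩
    have hr := T.link h0 hv
    induction hr with
    | refl => exact hbC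
    | tail hr hs ih =>
      rename_i y z
      have hyC : y ∈ C := ih ⟨z, hs⟩
      obtain ⟨d, hd⟩ := hyC
      have : z = d := T.uniq hs (T.cyc (T.cyc hd.2.2.1))
      subst this
      exact hC1 _ _ hd
  have hclw : ∀ v, T.Adj w v → v ∈ C := by
    intro v hv
    have h0 : T.Adj w b := T.adj_symm ⟨a, T.cyc h2⟩
    have hr := T.link h0 hv
    induction hr with
    | refl => exact hbC
    | tail hr hs ih =>
      rename_i y z
      have hyC : y ∈ C := ih ⟨z, hs⟩
      obtain ⟨d, hd⟩ := hC2 y hyC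
      have : z = d := T.uniq hs (T.cyc (T.cyc hd.2.2.2))
      subst this
      exact ⟨y, hd⟩
  -- everything
  have hall : ∀ v, v = u ∨ v = w ∨ v ∈ C := by
    intro v
    obtain ⟨pth⟩ := hcon.preconnected u v
    have key : ∀ x y : V, T.graph.Walk x y → (x = u ∨ x = w ∨ x ∈ C) →
        (y = u ∨ y = w ∨ y ∈ C) := by
      intro x y q
      induction q with
      | nil => exact fun h => h
      | @cons x y z hxy _ ih =>
        intro hx
        apply ih
        have hxy' : T.Adj x y := hxy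
        rcases hx with h | h | h
        · rw [h] at hxy'
          exact Or.inr (Or.inr (hclu y hxy'))
        · rw [h] at hxy'
          exact Or.inr (Or.inr (hclw y hxy'))
        · exact hclC x h y hxy'
    exact key u v pth (Or.inl rfl)
  have hsub : ({v : V | T.deg v ≠ 4} : Set V) ⊆ {u, w} := by
    intro v hv
    rcases hall v with h | h | h
    · simp [h]
    · simp [h]
    · obtain ⟨d, hd⟩ := h
      exact absurd hd.1 hv
  have hle : Nat.card {v // T.deg v ≠ 4} ≤ 2 := by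
    have h3 : Nat.card {v // T.deg v ≠ 4} = ({v : V | T.deg v ≠ 4} : Set V).ncard := rfl
    rw [h3]
    calc ({v : V | T.deg v ≠ 4} : Set V).ncard ≤ ({u, w} : Set V).ncard :=
          Set.ncard_le_ncard hsub (Set.toFinite _)
      _ ≤ ({w} : Set V).ncard + 1 := Set.ncard_insert_le u {w}
      _ = 2 := by rw [Set.ncard_singleton]
  omega

end Pool.Agent.PDM.H79
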